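import Pool.Agent.H20.RT.Stmts

set_option autoImplicit false

namespace Pool.RT

theorem CTO_thm : CTOStmt := by
  intro m
  induction m with
  | nil =>
    intro d _ _
    simp [cnt]
  | cons a m ih =>
    intro d hm hd
    have ha : a < 10 := hm a (by simp)
    have h1 := ih d (fun x hx => hm x (List.mem_cons_of_mem _ hx)) hd
    rw [Nat.ofDigits_cons]
    by_cases h0 : (a : ℕ) + 10 * Nat.ofDigits 10 m = 0
    · have ha0 : a = 0 := by omega
      have hm0 : Nat.ofDigits 10 m = 0 := by omega
      rw [hm0] at h1
      have h2 : cnt d 0 = 0 := by simp [cnt]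
      rw [List.count_cons, ← h1, hm0, ha0]
      have h3 : (0 == d) = false := by
        rw [beq_eq_false_iff_ne]
        omega
      simp [h2, h3]
    · have h2 : Nat.digits 10 (a + 10 * Nat.ofDigits 10 m) =
          a :: Nat.digits 10 (Nat.ofDigits 10 m) := by
        rw [Nat.digits_def' (by norm_num) (Nat.pos_of_ne_zero h0)]
        have e1 : (a + 10 * Nat.ofDigits 10 m) % 10 = a := by omega
        have e2 : (a + 10 * Nat.ofDigits 10 m) / 10 = Nat.ofDigits 10 m := by omega
        rw [e1, e2]
      unfold cnt at h1 ⊢
      rw [h2, List.count_cons, List.count_cons, h1]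

end Pool.RT
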